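import Pool.Agent.H108.St2.Four
import Pool.Agent.H108.St2.Main2
import Pool.Agent.H108.St2.Uniform
import Pool.Graph.R_seed8.R60.Steiner.Bounds

/-!
# Steiner systems of strength at least four: the number of points grows faster than the square
# of the block size, with an exponent that tends to infinity with the strength

Let a Steiner system `S(n, q, s)` exist, `4 ≤ s ≤ q < n`, and put `K = q - s + 1`, `N = n - s + 1`.
Then `N ≥ K ^ (25 / 12) / 10` and `N ≥ K ^ (min (log s) (log (log K)) / 1000)`; for fixed `r` and all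
`s ≥ r` one has `N ≥ c K ^ ((log r) / 100)`.
The general lower bounds of Fisher, Tits, Cameron, Ray-Chaudhuri and Wilson have the exponent `2`
(for `s = 2` and `s = 3` projective and inversive planes have exponent `2`). Only the divisibility
condition (D) and Fisher's inequality are used.

Proof. (D) says that `K (K+1) ⋯ (K+j-1)` divides `N (N+1) ⋯ (N+j-1)` for all `j ≤ s`.

*Strength four.* `N = K Z`, where `Z ≥ K + 1` by Fisher's inequality; `K + 1` divides `Z (Z-1)`,
`K + 2` divides `4 Z (Z-1) (2Z-1)`, and `K + 3` divides `9 Z (Z-1) (3Z-1) (3Z-2)`. The positive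
number `F = Z (Z-1) (K+2Z+1)^2 (2Z-K-3)^2 ((K+1)(K+2) + 9 Z (Z-1))^3` is then a multiple of
`(K+1)^6`, and `256 F` and `729 F` are multiples of `(K+2)^4` and `(K+3)^3`. So
`K ^ 13 ≤ 10 ^ 12 Z ^ 12`, and `N ≥ K ^ (25/12) / 10`.

*Large strength, fixed `r`.* Let `R = 2 ^ (6 A)`, `T = 8 R`. There is a nonzero `F ∈ ℤ[x, y]` of
degrees at most `A δ` in `x` and `δ` in `y`, where `δ ≤ 16 R`, which vanishes at all the points
`(-l, -i)`, `0 ≤ i ≤ l < R`, to the order `⌊T / (l + 1)⌋`. Hence the product of the powers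
`(K + l) ^ ⌊T / (l + 1)⌋` divides a bounded multiple of `F(K, N)`. If `N ≤ K ^ A` and `K` is large
this product is larger than the multiple, so `F(K, N) = 0`. Now let `s ≥ L`, `L = 2 ^ (96 A - 2)`.
If for some `l < L` no `F(-l, -i)`, `i ≤ l`, is `0`, then `K + l` divides their product. Otherwise
the curve `F = 0` has an integral point `(-l, -i_l)`, `0 ≤ i_l ≤ l`, for each `l < L`. We choose a
curve `E = 0` of smallest degree `e` in `y` through at least a proportion `(δ + e) / 2δ` of these
points, with small coefficients (Siegel's lemma). Then `∂E/∂y` does not vanish at many of them, nor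
modulo a suitable prime `p` slightly larger than `L ^ (2/3)`. Three such points in one residue class
modulo `p` span a triangle whose double area is divisible by `p ^ 3 > 2 L ^ 2`, so they are
collinear (a case of the method of Bombieri, Pila and Heath-Brown). So some line contains more
points than the degree of `F`, and divides `F`. Lines do not contain the points `(K, N)`, and the
other factor of `F` is treated in the same way.

*The uniform inequality.* The same with multiplicities that depend on the pair `(K, N)`, auxiliary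
polynomials with bounded coefficients (Siegel's lemma), and a descent through the sets of zeros
`i ≤ l` of `F(-l, -i)` and their shifts modulo primes (`Pool.Agent.H424.SG`, helper424): if
`r ≥ 3844 a ^ 2 + 10 a + 1`, where `a = A (601 R ^ 3) ^ 2` and `1 + 1/2 + ⋯ + 1/R ≥ 8 A`, then
`N > K ^ A` for all `K > r ^ (r ^ 4)`. We take `R = 2 ^ (12 A)` and `r = ⌊exp (m / 5)⌋`, where
`m = min (log s) (log (log K))`.
-/

set_option autoImplicit false

namespace Pool.Agent.Results.MP_409a13_co.BeyondQuadratic

/-- `B` is a Steiner system `S(n, q, r)` on the points `Fin n`: its members (blocks) have `q`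
elements, and each set of `r` points lies in exactly one block. -/
def IsSteiner (n q r : ℕ) (B : Finset (Finset (Fin n))) : Prop :=
  (∀ b ∈ B, b.card = q) ∧ ∀ s : Finset (Fin n), s.card = r → ∃! b, b ∈ B ∧ s ⊆ b

/-- The divisibility condition (D): for each `i < r` the number `C(n-i, r-i)` is a multiple of
`C(q-i, r-i)`. -/
def DivCond (n q r : ℕ) : Prop := ∀ i < r, (q - i).choose (r - i) ∣ (n - i).choose (r - i)

/-- A Steiner system `S(n, q, s)` exists, or the divisibility condition (D) and Fisher's inequality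
`n - s + 1 ≥ (q - s + 1) (q - s + 2)` hold. -/
def SteinerOrDivisible (n q s : ℕ) : Prop :=
  (∃ B, IsSteiner n q s B) ∨ (DivCond n q s ∧ (q - s + 1) * (q - s + 2) ≤ n - s + 1)

/-- **Main result.** Let `K = q - s + 1` and `N = n - s + 1`, where a Steiner system `S(n, q, s)`
with `4 ≤ s ≤ q < n` exists (or (D) and Fisher's inequality `N ≥ K (K + 1)` hold). Then
`N ≥ K ^ (25 / 12) / 10` and `N ≥ K ^ (min (log s) (log (log K)) / 1000)`. Moreover for every
`r ≥ 4` there is `c > 0` such that `N ≥ c K ^ ((log r) / 100)` for all of them with `s ≥ r`. -/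
theorem result :
    (∀ n q s : ℕ, 4 ≤ s → s ≤ q → q < n → SteinerOrDivisible n q s →
      ((q - s + 1 : ℕ) : ℝ) ^ (25 / 12 : ℝ) / 10 ≤ ((n - s + 1 : ℕ) : ℝ) ∧
      ((q - s + 1 : ℕ) : ℝ) ^
        (min (Real.log s) (Real.log (Real.log ((q - s + 1 : ℕ) : ℝ))) / 1000) ≤
          ((n - s + 1 : ℕ) : ℝ)) ∧
    (∀ r : ℕ, 4 ≤ r → ∃ c : ℝ, 0 < c ∧
      ∀ n q s : ℕ, r ≤ s → s ≤ q → q < n → SteinerOrDivisible n q s →
        c * ((q - s + 1 : ℕ) : ℝ) ^ (Real.log r / 100) ≤ ((n - s + 1 : ℕ) : ℝ)) := by
  -- the parameters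
  have key : ∀ n q s : ℕ, 4 ≤ s → s ≤ q → q < n → SteinerOrDivisible n q s →
      Pool.Agent.H108.St.Dv s (q - s + 1) (n - s + 1) ∧
        (q - s + 1) * (q - s + 1 + 1) ≤ n - s + 1 := by
    intro n q s hs hsq hqn h
    have h2 : DivCond n q s ∧ (q - s + 1) * (q - s + 2) ≤ n - s + 1 := by
      rcases h with ⟨B, hB⟩ | h
      · refine ⟨Pool.Agent.R60.Steiner.divCond_of_isSteiner (by omega) (B := B) hB, ?_⟩
        have := Pool.Agent.R60.Steiner.fisher (B := B) hB (by omega) hsq hqn
        omega
      · exact h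
    exact ⟨Pool.Agent.H108.St.dv_of_divCond hsq hqn.le h2.1, h2.2⟩
  refine ⟨?_, ?_⟩
  · intro n q s hs hsq hqn h
    obtain ⟨hD, hF⟩ := key n q s hs hsq hqn h
    refine ⟨?_, Pool.Agent.H108.St2.uniform (by omega) hF hD⟩
    have h1 := Pool.Agent.H108.St2.four (by omega) (hD.mono hs) hF
    set K := q - s + 1 with hK
    set N := n - s + 1 with hN
    have h2 : (((K : ℝ) ^ (25 / 12 : ℝ)) ^ 12) = (K : ℝ) ^ 25 := by
      rw [← Real.rpow_natCast, ← Real.rpow_mul (by positivity), ← Real.rpow_natCast]
      norm_num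
    have h3 : ((K : ℝ) ^ (25 / 12 : ℝ) / 10) ^ 12 ≤ (N : ℝ) ^ 12 := by
      rw [div_pow, h2, div_le_iff₀ (by norm_num)]
      have h4 : (K : ℝ) ^ 25 ≤ 10 ^ 12 * (N : ℝ) ^ 12 := by exact_mod_cast h1
      linarith
    exact le_of_pow_le_pow_left₀ (by norm_num) (by positivity) h3
  intro r hr
  set X := Real.log r / 100 with hXdef
  have hr0 : (0 : ℝ) < r := by positivity
  have hX0 : 0 < X := by
    have h1 : 0 < Real.log r := Real.log_pos (by
      have : (4 : ℝ) ≤ r := by exact_mod_cast hr
      linarith)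
    positivity
  rcases le_or_gt X 2 with hX | hX
  · -- trivial from Fisher's inequality
    refine ⟨1, one_pos, ?_⟩
    intro n q s hrs hsq hqn h
    obtain ⟨hD, hF⟩ := key n q s (hr.trans hrs) hsq hqn h
    set K := q - s + 1 with hK
    set N := n - s + 1 with hN
    have hK1 : (1 : ℝ) ≤ K := by
      have : 1 ≤ K := by omega
      exact_mod_cast this
    have hF' : (K : ℝ) * (K + 1) ≤ N := by exact_mod_cast hF
    rw [one_mul]
    calc (K : ℝ) ^ X ≤ (K : ℝ) ^ (2 : ℝ) := Real.rpow_le_rpow_of_exponent_le hK1 hX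
      _ = (K : ℝ) ^ 2 := by norm_num
      _ ≤ N := by nlinarith
  · -- the exponent `(log r) / 100`
    set A := ⌈X⌉₊ with hA
    have hA1 : X ≤ A := Nat.le_ceil X
    have hA2 : (A : ℝ) < X + 1 := Nat.ceil_lt_add_one hX0.le
    have hA3 : 3 ≤ A := by
      have : (2 : ℝ) < A := by linarith
      exact_mod_cast this
    have hrA : 2 ^ (96 * A) ≤ r := by
      have h1 : Real.log ((2 : ℝ) ^ (96 * A)) ≤ Real.log r := by
        rw [Real.log_pow]
        push_cast
        have h2 := Real.log_two_lt_d9
        have h3 : Real.log r = 100 * X := by rw [hXdef]; ring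
        rw [h3]
        nlinarith
      have h2 := (Real.log_le_log_iff (by positivity) hr0).1 h1
      exact_mod_cast h2
    obtain ⟨K₀, hK₀⟩ := Pool.Agent.H108.St2.main_arith2 A hA3
    refine ⟨((K₀ : ℝ) + 1) ^ (-X), by positivity, ?_⟩
    intro n q s hrs hsq hqn h
    obtain ⟨hD, hF⟩ := key n q s (hr.trans hrs) hsq hqn h
    set K := q - s + 1 with hK
    set N := n - s + 1 with hN
    have hK1 : 1 ≤ K := by omega
    have hN1 : (1 : ℝ) ≤ N := by
      have : 1 ≤ N := by omega
      exact_mod_cast this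
    rcases le_or_gt K₀ K with hKK | hKK
    · have h1 : K ^ A < N := by
        by_contra hcon
        exact hK₀ K N hKK (by nlinarith) (not_lt.1 hcon) (hD.mono (hrA.trans hrs))
      have h2 : (K : ℝ) ^ X ≤ (K : ℝ) ^ A := by
        rw [← Real.rpow_natCast]
        exact Real.rpow_le_rpow_of_exponent_le (by exact_mod_cast hK1) hA1
      have h3 : ((K₀ : ℝ) + 1) ^ (-X) ≤ 1 :=
        Real.rpow_le_one_of_one_le_of_nonpos (by linarith [(Nat.cast_nonneg K₀ : (0 : ℝ) ≤ K₀)])
          (by linarith)
      have h4 : ((K : ℝ) ^ A) < N := by exact_mod_cast h1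
      have h5 : (0 : ℝ) ≤ (K : ℝ) ^ X := by positivity
      nlinarith
    · have h1 : (K : ℝ) ^ X ≤ ((K₀ : ℝ) + 1) ^ X := by
        apply Real.rpow_le_rpow (by positivity) _ hX0.le
        have : (K : ℝ) ≤ K₀ := by exact_mod_cast hKK.le
        linarith
      have h2 : ((K₀ : ℝ) + 1) ^ (-X) * ((K₀ : ℝ) + 1) ^ X = 1 := by
        rw [← Real.rpow_add (by positivity)]
        simp
      calc ((K₀ : ℝ) + 1) ^ (-X) * (K : ℝ) ^ X ≤ ((K₀ : ℝ) + 1) ^ (-X) * ((K₀ : ℝ) + 1) ^ X :=
            mul_le_mul_of_nonneg_left h1 (by positivity)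
        _ = 1 := h2
        _ ≤ N := hN1

end Pool.Agent.Results.MP_409a13_co.BeyondQuadratic
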