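import Pool.Agent.H424.PS.Core

/-!
# Linear spaces as restrictions of Steiner systems `S(n,q,2)`, with explicit bounds

There is an absolute constant `C` such that the following holds for all `q ≥ 2` and `m ≥ 1` and all
`n` that satisfy the divisibility condition (D) and

* `n ≥ q^C m`, if `q` is a prime power;
* `n ≥ q^(C q) m`, for all `q ≥ 2`.

(1) Every linear space on `m` points whose lines have at most `q` points is the restriction of a
Steiner system `S(n,q,2)` to `m` of its points: its lines are exactly the sets of at least two of
the `m` points which are intersections of the set of the `m` points with a block.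

(2) Every partial Steiner system on `m` points with blocks of size `q` is contained in a Steiner
system `S(n,q,2)` all of whose other blocks meet the set of the `m` points in at most two points.

The bound is linear in `m`, which is best possible: if no three of the `m` points are in a block,
then `n ≥ (q - 1) (m - 1) + 1`.

Proof. (2) Let `Q` be a prime between `m + k` and `2 (m + k)`. In the affine plane of order `Q` take
`k` vertical lines and `m` points of a parabola on none of them. Every other line meets this set in
`k` points of the vertical lines and at most two points of the parabola. Replace every point by `G`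
points (`k`, `G` polynomial in `q`) and add a point `∞`. Over a block of the partial system put a
transversal design, over a line two of whose points are in a common block of the partial
system a group divisible design of type `G^k (2G)^1`, over all the other lines designs of type
`G^k`, `G^(k+1)`, `G^(k+2)`, over the vertical lines and the points of the parabola, together with
`∞`, Steiner systems. This gives a Steiner system with at most `q^C' m` points; it is a subsystem of
systems of all larger admissible orders. (1) Extend the lines with more than two points by points of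
`q` new sets of `p` points with labels in the affine plane of order `p` chosen greedily.
-/

set_option autoImplicit false

namespace Pool.Agent.Results.MP_409a13_co.LinearSpaces

open Finset

/-- `B` is a Steiner system `S(n,q,2)` on the set `Fin n` -/
def IsSteiner (n q : ℕ) (B : Finset (Finset (Fin n))) : Prop :=
  (∀ b ∈ B, b.card = q) ∧ ∀ T : Finset (Fin n), T.card = 2 → ∃! b, b ∈ B ∧ T ⊆ b

/-- `L` is (the set of the lines of) a linear space on the set `Fin m`: every line has at least two
points, and every two points are on exactly one line -/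
def IsLinearSpace (m : ℕ) (L : Finset (Finset (Fin m))) : Prop :=
  (∀ l ∈ L, 2 ≤ l.card) ∧ ∀ T : Finset (Fin m), T.card = 2 → ∃! l, l ∈ L ∧ T ⊆ l

/-- `P` is a partial Steiner system with block size `q` on the set `Fin m`: any two points are in
at most one block -/
def IsPartialSteiner (m q : ℕ) (P : Finset (Finset (Fin m))) : Prop :=
  (∀ b ∈ P, b.card = q) ∧ ∀ b ∈ P, ∀ b' ∈ P, b ≠ b' → (b ∩ b').card ≤ 1

/-- the intersection of the block `b` with the set of the first `m` of the `n` points -/
def trace {m n : ℕ} (h : m ≤ n) (b : Finset (Fin n)) : Finset (Fin m) :=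
  univ.filter (fun x => Fin.castLE h x ∈ b)

/-- There is an absolute constant `C` such that for all `q ≥ 2`, `m ≥ 1` and `n` with `n ≥ q^C m` and
`q` a prime power, or with `n ≥ q^(C q) m`, for which the divisibility condition (D) holds:
(1) for every linear space `L` on `m` points with lines of at most `q` points there is a Steiner
system `S(n,q,2)` such that the lines of `L` are exactly the sets of at least two points which are
intersections of blocks with the set of the first `m` points;
(2) every partial Steiner system `P` with block size `q` on `m` points is contained in a Steiner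
system `S(n,q,2)` whose other blocks contain at most two of the first `m` points. -/
theorem result : ∃ C : ℕ, ∀ q m n : ℕ, 2 ≤ q → 1 ≤ m →
    ((IsPrimePow q ∧ q ^ C * m ≤ n) ∨ q ^ (C * q) * m ≤ n) →
    (∀ i < 2, (q - i).choose (2 - i) ∣ (n - i).choose (2 - i)) →
    (∀ L : Finset (Finset (Fin m)), IsLinearSpace m L → (∀ l ∈ L, l.card ≤ q) →
      ∃ (h : m ≤ n) (B : Finset (Finset (Fin n))), IsSteiner n q B ∧
        ∀ s : Finset (Fin m), 2 ≤ s.card → (s ∈ L ↔ ∃ b ∈ B, trace h b = s)) ∧
    (∀ P : Finset (Finset (Fin m)), IsPartialSteiner m q P →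
      ∃ (h : m ≤ n) (B : Finset (Finset (Fin n))), IsSteiner n q B ∧
        (∀ b ∈ P, b.map (Fin.castLEEmb h) ∈ B) ∧
        ∀ b ∈ B, (∃ b₀ ∈ P, b = b₀.map (Fin.castLEEmb h)) ∨ (trace h b).card ≤ 2) := by
  classical
  obtain ⟨C1, hC1⟩ := Pool.Agent.H424.PS.linear
  obtain ⟨C2, hC2⟩ := Pool.Agent.H424.PS.core
  refine ⟨max C1 C2, ?_⟩
  intro q m n hq hm hn hD
  have hle : ∀ C, C ≤ max C1 C2 → ((IsPrimePow q ∧ q ^ C * m ≤ n) ∨ q ^ (C * q) * m ≤ n) := by
    intro C hC
    rcases hn with ⟨hpp, hn⟩ | hn
    · exact Or.inl ⟨hpp, (Nat.mul_le_mul_right _ (Nat.pow_le_pow_right (by omega) hC)).trans hn⟩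
    · exact Or.inr ((Nat.mul_le_mul_right _ (Nat.pow_le_pow_right (by omega)
        (Nat.mul_le_mul_right _ hC))).trans hn)
  refine ⟨?_, ?_⟩
  · intro L hL hLq
    obtain ⟨h, B, hB, hs⟩ := hC1 q m n hq hm (hle C1 (le_max_left _ _)) hD L
      (fun l hl => ⟨hL.1 l hl, hLq l hl⟩) (by
        intro x y hxy
        obtain ⟨l, ⟨hl1, hl2⟩, hl3⟩ := hL.2 {x, y} (card_pair hxy)
        refine ⟨l, ⟨hl1, hl2 (by simp), hl2 (by simp)⟩, ?_⟩
        rintro l' ⟨h1, h2, h3⟩
        refine hl3 l' ⟨h1, ?_⟩
        intro z hz
        rcases mem_insert.1 hz with rfl | hz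
        · exact h2
        · rw [mem_singleton.1 hz]; exact h3)
    refine ⟨h, B, hB, ?_⟩
    intro s hs2
    rw [hs s hs2]
    constructor
    · rintro ⟨b, hb, hsb⟩
      refine ⟨b, hb, ?_⟩
      ext x
      simp [trace, hsb x]
    · rintro ⟨b, hb, rfl⟩
      exact ⟨b, hb, fun x => by simp [trace]⟩
  · intro P hP
    obtain ⟨h, B, hB, hG1, hG2⟩ := hC2 q m n hq hm (hle C2 (le_max_right _ _)) hD P ⟨hP.1, by
      intro b hb b' hb' x y hxy h1 h2 h3 h4
      by_contra hne
      have h5 := hP.2 b hb b' hb' hne
      have h6 : 1 < (b ∩ b').card :=
        one_lt_card.2 ⟨x, mem_inter.2 ⟨h1, h3⟩, y, mem_inter.2 ⟨h2, h4⟩, hxy⟩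
      omega⟩
    refine ⟨h, B, hB, hG1, ?_⟩
    intro b hb
    rcases hG2 b hb with hb0 | hb3
    · exact Or.inl hb0
    · right
      by_contra hcon
      push Not at hcon
      obtain ⟨x, y, z, hx, hy, hz, hxy, hxz, hyz⟩ := two_lt_card_iff.1 hcon
      exact hb3 x y z hxy hxz hyz (mem_filter.1 hx).2 (mem_filter.1 hy).2 (mem_filter.1 hz).2

end Pool.Agent.Results.MP_409a13_co.LinearSpaces
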