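import Pool.Agent.H180.Qd.DerSys
import Pool.Agent.H180.Qd.Ov

/-!
# Closing chains in Steiner systems `S(n² + 1, n + 1, 3)`

Let `C` be a block of a Steiner system `S(n² + 1, n + 1, 3)` and `p` a point off `C`. Every point
`x ≠ p` off `C` defines an involution `σ_x` of `C`: it exchanges the two points of `C` on the blocks
through `p` and `x`, and fixes the points in which such a block touches `C`. In the Miquelian inversive
planes `(σ_z σ_y σ_x)² = 1` whenever `p, x, y, z` lie on a block (Pascal's theorem for the circle `C`,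
with `p` at infinity). We show: if for ONE block `C` and ONE point `p` off `C` this fails for at most
`n ^ 5 / 15000 - 4 n ^ 4` triples `x, y, z`, then `n` is a prime power. Moreover, if `n` is not a prime
power, then the involutions of one block `C` with respect to one point `p` have many products.

Proof. The blocks through `p` form an affine plane in which `C` is an oval; we add its parallel
classes. The involutions of the closed plane are the subject of `Pool.Agent.H180.Pa`: the products of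
two of them with many representations are a nearly closed set of at most `n ^ 3 - n` permutations, so
they are close to a group, which is sharply three-transitive.
-/

set_option autoImplicit false

namespace Pool.Agent.Results.MP_409a13_co.OpenChains

/-- `B` is the set of blocks of a Steiner system `S(n² + 1, n + 1, 3)` on `V`. -/
def Steiner {V : Type} [Fintype V] (B : Set (Finset V)) (n : ℕ) : Prop :=
  Fintype.card V = n ^ 2 + 1 ∧ (∀ D ∈ B, D.card = n + 1) ∧
    ∀ s : Finset V, s.card = 3 → ∃! D : Finset V, D ∈ B ∧ s ⊆ D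

/-- Some block through `p` and `x` meets `C` exactly in `a` and `b` (touches `C` in `a` if `a = b`). -/
def Step {V : Type} (B : Set (Finset V)) (C : Finset V) (p x a b : V) : Prop :=
  ∃ D ∈ B, p ∈ D ∧ x ∈ D ∧ ∀ y, (y ∈ D ∧ y ∈ C) ↔ (y = a ∨ y = b)

/-- All chains of six steps on `C`, with the blocks passing through `p` and `x, y, z, x, y, z` in turn,
are closed. -/
def Closes {V : Type} (B : Set (Finset V)) (C : Finset V) (p x y z : V) : Prop :=
  ∀ a b c d e f g : V, Step B C p x a b → Step B C p y b c → Step B C p z c d →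
    Step B C p x d e → Step B C p y e f → Step B C p z f g → g = a

/-- The triples `x, y, z` of points off `C` on a common block through `p`, different from `p`, for
which some chain is not closed. -/
def Open {V : Type} (B : Set (Finset V)) (C : Finset V) (p : V) : Set (V × V × V) :=
  {t | (t.1 ≠ p ∧ t.1 ∉ C) ∧ (t.2.1 ≠ p ∧ t.2.1 ∉ C) ∧ (t.2.2 ≠ p ∧ t.2.2 ∉ C) ∧
    (∃ D ∈ B, p ∈ D ∧ t.1 ∈ D ∧ t.2.1 ∈ D ∧ t.2.2 ∈ D) ∧ ¬ Closes B C p t.1 t.2.1 t.2.2}

section

open Pool.Agent.H180.Qd Finset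
open scoped Classical

variable {V : Type} [Fintype V] {B : Set (Finset V)} {n : ℕ}
  (h : S3 B n) (hn : 2 ≤ n) {C : Finset V} (hC : C ∈ B) {p : V} (hp : p ∉ C) {q : V} (hq : q ≠ p)

theorem fail_of {x y z : XP B C p q}
    (hne : ¬ (dinv h hn hC hp hq x * dinv h hn hC hp hq y * dinv h hn hC hp hq z =
      dinv h hn hC hp hq z * dinv h hn hC hp hq y * dinv h hn hC hp hq x)) :
    ∃ a : {a : V // a ∈ C}, dinv h hn hC hp hq z (dinv h hn hC hp hq y (dinv h hn hC hp hq x
      (dinv h hn hC hp hq z (dinv h hn hC hp hq y (dinv h hn hC hp hq x a))))) ≠ a := by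
  by_contra hcon
  push Not at hcon
  apply hne
  set X := dinv h hn hC hp hq x
  set Y := dinv h hn hC hp hq y
  set Z := dinv h hn hC hp hq z
  have X2 : X * X = 1 := dinv_mul h hn hC hp hq x
  have Y2 : Y * Y = 1 := dinv_mul h hn hC hp hq y
  have Z2 : Z * Z = 1 := dinv_mul h hn hC hp hq z
  have e1 : Z * Y * X * (Z * Y * X) = 1 := by
    apply Equiv.ext
    intro a
    simp only [Equiv.Perm.mul_apply]
    rw [hcon a]; rfl
  have e2 : X * Y * Z * (Z * Y * X) = 1 := by
    calc X * Y * Z * (Z * Y * X) = X * (Y * ((Z * Z) * Y)) * X := by simp only [mul_assoc]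
      _ = 1 := by rw [Z2, one_mul, Y2, mul_one, X2]
  exact mul_right_cancel (e2.trans e1.symm)

theorem bad_le (hn' : 1000 ≤ n) :
    (dsys h hn hC hp hq).Bad.card ≤ (Open B C p).ncard + 4 * n ^ 4 := by
  set s := dsys h hn hC hp hq with hs
  set A : Finset (XP B C p q) := univ.image Sum.inr with hA
  have cA : A.card ≤ n + 1 := by
    rw [hA]
    refine card_image_le.trans ?_
    rw [card_univ, Fintype.card_subtype]
    exact (h.card_through hn hq.symm).le
  have cS : ∀ l, (s.SX l).card ≤ n + 1 := fun l => (s.card_SX hn l).2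
  have cL : ∀ x, (univ.filter (fun l => s.I x l)).card ≤ n + 1 := fun x => (s.pencil x).le
  -- the triples with a point at infinity
  have bound : ∀ φ : XP B C p q → XP B C p q × XP B C p q → (XP B C p q × XP B C p q) × XP B C p q,
      (A.biUnion (fun x => (univ.filter (fun l => s.I x l)).biUnion (fun l =>
        (s.SX l ×ˢ s.SX l).image (φ x)))).card ≤ (n + 1) ^ 4 := by
    intro φ
    have e1 : ∀ x ∈ A, ((univ.filter (fun l => s.I x l)).biUnion (fun l =>
        (s.SX l ×ˢ s.SX l).image (φ x))).card ≤ (n + 1) ^ 3 := by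
      intro x _
      have e2 : ∀ l ∈ univ.filter (fun l => s.I x l),
          ((s.SX l ×ˢ s.SX l).image (φ x)).card ≤ (n + 1) * (n + 1) := by
        intro l _
        refine card_image_le.trans ?_
        rw [card_product]
        exact Nat.mul_le_mul (cS l) (cS l)
      refine (card_biUnion_le_card_mul _ _ _ e2).trans ?_
      calc _ ≤ (n + 1) * ((n + 1) * (n + 1)) := Nat.mul_le_mul_right _ (cL x)
        _ = _ := by ring
    refine (card_biUnion_le_card_mul _ _ _ e1).trans ?_
    calc _ ≤ (n + 1) * (n + 1) ^ 3 := Nat.mul_le_mul_right _ cA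
      _ = _ := by ring
  set T := A.biUnion (fun x => (univ.filter (fun l => s.I x l)).biUnion (fun l =>
        (s.SX l ×ˢ s.SX l).image (fun w => ((x, w.1), w.2)))) ∪
      (A.biUnion (fun x => (univ.filter (fun l => s.I x l)).biUnion (fun l =>
        (s.SX l ×ˢ s.SX l).image (fun w => ((w.1, x), w.2)))) ∪
      A.biUnion (fun x => (univ.filter (fun l => s.I x l)).biUnion (fun l =>
        (s.SX l ×ˢ s.SX l).image (fun w => ((w.1, w.2), x))))) with hT
  have cT : T.card ≤ 4 * n ^ 4 := by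
    have b1 := bound (fun x w => ((x, w.1), w.2))
    have b2 := bound (fun x w => ((w.1, x), w.2))
    have b3 := bound (fun x w => ((w.1, w.2), x))
    have u1 := card_union_le (A.biUnion (fun x => (univ.filter (fun l => s.I x l)).biUnion (fun l =>
        (s.SX l ×ˢ s.SX l).image (fun w => ((x, w.1), w.2)))))
      (A.biUnion (fun x => (univ.filter (fun l => s.I x l)).biUnion (fun l =>
        (s.SX l ×ˢ s.SX l).image (fun w => ((w.1, x), w.2)))) ∪
      A.biUnion (fun x => (univ.filter (fun l => s.I x l)).biUnion (fun l =>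
        (s.SX l ×ˢ s.SX l).image (fun w => ((w.1, w.2), x)))))
    have u2 := card_union_le (A.biUnion (fun x => (univ.filter (fun l => s.I x l)).biUnion (fun l =>
        (s.SX l ×ˢ s.SX l).image (fun w => ((w.1, x), w.2)))))
      (A.biUnion (fun x => (univ.filter (fun l => s.I x l)).biUnion (fun l =>
        (s.SX l ×ˢ s.SX l).image (fun w => ((w.1, w.2), x)))))
    rw [← hT] at u1
    have e3 : 3 * (n + 1) ^ 4 ≤ 4 * n ^ 4 := by
      have e4 : 1000 * (n + 1) ≤ 1001 * n := by omega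
      have e5 := Nat.pow_le_pow_left e4 4
      have e6 : 1000 ^ 4 * (3 * (n + 1) ^ 4) ≤ 1000 ^ 4 * (4 * n ^ 4) := by
        calc 1000 ^ 4 * (3 * (n + 1) ^ 4) = 3 * (1000 * (n + 1)) ^ 4 := by ring
          _ ≤ 3 * (1001 * n) ^ 4 := Nat.mul_le_mul_left _ e5
          _ = (3 * 1001 ^ 4) * n ^ 4 := by ring
          _ ≤ (1000 ^ 4 * 4) * n ^ 4 := Nat.mul_le_mul_right _ (by norm_num)
          _ = _ := by ring
      exact Nat.le_of_mul_le_mul_left e6 (by norm_num)
    omega
  have hfin : (Open B C p).Finite := Set.toFinite _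
  rw [Set.ncard_eq_toFinset_card _ hfin]
  have hinf : ∀ x : XP B C p q, x ∉ A → ∃ w, x = Sum.inl w := by
    intro x hx
    rcases x with w | E
    · exact ⟨w, rfl⟩
    · exact absurd (mem_image_of_mem _ (mem_univ _)) hx
  let F : XP B C p q → V := Sum.elim (fun x => (x : V)) (fun _ => p)
  have hF : (s.Bad \ T).card ≤ hfin.toFinset.card := by
    have hno : ∀ x y z, ((x, y), z) ∈ s.Bad \ T → x ∉ A ∧ y ∉ A ∧ z ∉ A := by
      intro x y z ht
      obtain ⟨ht1, ht2⟩ := Finset.mem_sdiff.1 ht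
      obtain ⟨⟨l, h1, h2, h3⟩, -⟩ := s.mem_Bad.1 ht1
      simp only at h1 h2 h3
      rw [hT, mem_union, mem_union] at ht2
      refine ⟨fun hx => ht2 (Or.inl ?_), fun hy => ht2 (Or.inr (Or.inl ?_)),
        fun hz => ht2 (Or.inr (Or.inr ?_))⟩
      · exact mem_biUnion.2 ⟨x, hx, mem_biUnion.2 ⟨l, mem_filter.2 ⟨mem_univ _, h1⟩,
          mem_image.2 ⟨(y, z), mem_product.2 ⟨s.mem_SX.2 h2, s.mem_SX.2 h3⟩, rfl⟩⟩⟩
      · exact mem_biUnion.2 ⟨y, hy, mem_biUnion.2 ⟨l, mem_filter.2 ⟨mem_univ _, h2⟩,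
          mem_image.2 ⟨(x, z), mem_product.2 ⟨s.mem_SX.2 h1, s.mem_SX.2 h3⟩, rfl⟩⟩⟩
      · exact mem_biUnion.2 ⟨z, hz, mem_biUnion.2 ⟨l, mem_filter.2 ⟨mem_univ _, h3⟩,
          mem_image.2 ⟨(x, y), mem_product.2 ⟨s.mem_SX.2 h1, s.mem_SX.2 h2⟩, rfl⟩⟩⟩
    apply card_le_card_of_injOn (fun t => (F t.1.1, F t.1.2, F t.2))
    · rintro ⟨⟨x, y⟩, z⟩ ht
      obtain ⟨hx, hy, hz⟩ := hno x y z (mem_coe.1 ht)
      obtain ⟨x, rfl⟩ := hinf x hx
      obtain ⟨y, rfl⟩ := hinf y hy
      obtain ⟨z, rfl⟩ := hinf z hz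
      obtain ⟨⟨l, h1, h2, h3⟩, h4⟩ := s.mem_Bad.1 (Finset.mem_sdiff.1 (mem_coe.1 ht)).1
      simp only at h1 h2 h3 h4
      refine mem_coe.2 (hfin.mem_toFinset.2 ⟨x.2, y.2, z.2, ?_, ?_⟩)
      · rcases l with _ | L
        · exact absurd h1 id
        · exact ⟨L, L.2.1, L.2.2, h1, h2, h3⟩
      · obtain ⟨a, ha⟩ := fail_of h hn hC hp hq h4
        intro hI
        apply ha
        apply Subtype.ext
        have st : ∀ (w : {x : V // x ≠ p ∧ x ∉ C}) (a : {a : V // a ∈ C}),
            Step B C p (w : V) (a : V) (dinv h hn hC hp hq (Sum.inl w) a) := by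
          intro w a
          obtain ⟨D, g1, g2⟩ := dinv_spec h hn hC hp hq (Sum.inl w) a
          exact ⟨D, D.2.1, D.2.2, g1, g2⟩
        exact hI _ _ _ _ _ _ _ (st x a) (st y _) (st z _) (st x _) (st y _) (st z _)
    · rintro ⟨⟨x, y⟩, z⟩ ht ⟨⟨x', y'⟩, z'⟩ ht' he
      obtain ⟨hx, hy, hz⟩ := hno x y z (mem_coe.1 ht)
      obtain ⟨hx', hy', hz'⟩ := hno x' y' z' (mem_coe.1 ht')
      obtain ⟨x, rfl⟩ := hinf x hx
      obtain ⟨y, rfl⟩ := hinf y hy
      obtain ⟨z, rfl⟩ := hinf z hz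
      obtain ⟨x', rfl⟩ := hinf x' hx'
      obtain ⟨y', rfl⟩ := hinf y' hy'
      obtain ⟨z', rfl⟩ := hinf z' hz'
      simp only [F, Sum.elim_inl, Prod.mk.injEq] at he
      obtain ⟨h1, h2, h3⟩ := he
      rw [Subtype.ext h1, Subtype.ext h2, Subtype.ext h3]
  have c1 := card_le_card_sdiff_add_card (s := s.Bad) (t := T)
  omega

end

/-- The permutations of `C` induced by the pencils of blocks whose carrier contains `p`. -/
def Inv {V : Type} (B : Set (Finset V)) (C : Finset V) (p : V) :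
    Set (Equiv.Perm {x : V // x ∈ C}) :=
  {σ | ∃ (T : Set (Finset V)) (K : Finset V), T ⊆ B ∧ p ∈ K ∧
    (∀ D ∈ T, ∀ D' ∈ T, D ≠ D' → ∀ x, (x ∈ D ∧ x ∈ D') ↔ x ∈ K) ∧ (∀ x : V, ∃ D ∈ T, x ∈ D) ∧
    (∀ x ∈ K, x ∉ C) ∧ ∀ a : {x : V // x ∈ C}, ∃ D ∈ T, ∀ y, (y ∈ D ∧ y ∈ C) ↔ (y = a ∨ y = σ a)}

/-- The products of `k` elements of `I`. -/
def Prods {Ω : Type} (I : Set (Equiv.Perm Ω)) (k : ℕ) : Set (Equiv.Perm Ω) :=
  {f | ∃ l : List (Equiv.Perm Ω), l.length = k ∧ (∀ σ ∈ l, σ ∈ I) ∧ l.prod = f}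

open scoped Classical in
theorem inv_eq {V : Type} (B : Set (Finset V)) (C : Finset V) (p : V) :
    Inv B C p = {σ | Pool.Agent.H180.Qd.Pencil B C p σ} := by
  ext σ
  constructor
  · rintro ⟨T, K, h1, h2, h3, h4, h5, h6⟩
    refine ⟨T, K, h1, h2, ?_, h4, h5, h6⟩
    intro D hD D' hD' hne
    ext x
    rw [Finset.mem_inter]
    exact h3 D hD D' hD' hne x
  · rintro ⟨T, K, h1, h2, h3, h4, h5, h6⟩
    refine ⟨T, K, h1, h2, ?_, h4, h5, h6⟩
    intro D hD D' hD' hne x
    rw [← Finset.mem_inter, h3 D hD D' hD' hne]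

/-- Let a Steiner system `S(n² + 1, n + 1, 3)`, a block `C` and a point `p` off `C` be given.
(1) Let `n ≥ 1000`. If at most `n ^ 5 / 15000 - 4 n ^ 4` triples are open, then `n` is a prime power.
(2) If `n ≥ 2` is not a prime power, then for every `k` at least `(2 - (2/3)^k)(n + 1) n (n - 1)`
permutations of `C` are products of `k + 2` permutations induced by pencils. -/
theorem result (V : Type) [Fintype V] (B : Set (Finset V)) (n : ℕ) (hB : Steiner B n)
    (C : Finset V) (hC : C ∈ B) (p : V) (hp : p ∉ C) :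
    (1000 ≤ n → 15000 * ((Open B C p).ncard + 4 * n ^ 4) ≤ n ^ 5 → IsPrimePow n) ∧
    (2 ≤ n → ¬ IsPrimePow n → ∀ k : ℕ, (2 - (2 / 3 : ℝ) ^ k) * ((n + 1) * n * (n - 1)) ≤
      ((Prods (Inv B C p) (k + 2)).ncard : ℝ)) := by
  classical
  have h : Pool.Agent.H180.Qd.S3 B n := hB
  refine ⟨fun hn hO => ?_, fun hn hnp k => ?_⟩
  · have hC0 : 0 < C.card := by rw [hB.2.1 C hC]; omega
    obtain ⟨q, hq⟩ := Finset.card_pos.1 hC0
    have hqp : q ≠ p := fun e => hp (e ▸ hq)
    have h1 := bad_le h (by omega) hC hp hqp hn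
    exact (Pool.Agent.H180.Qd.dsys h (by omega) hC hp hqp).main hn (by omega)
  · have hquad := h.quad hn hC hp
    rcases Pool.Agent.H180.Qd.dichotomy hquad hn (by rw [Fintype.card_coe, h.2.1 C hC]) with h1 | h1
    · exact absurd h1.2 hnp
    · have := h1 k
      rw [inv_eq]
      exact this

end Pool.Agent.Results.MP_409a13_co.OpenChains
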