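import Mathlib
import Pool.Agent.H178.TwoC

set_option autoImplicit false

/-!
# Two points of a line of a projective plane whose order is not a prime power

Let `n` be the order of a finite projective plane, `n` not a prime power, `l` a line and `V ≠ W`
two points of `l`.

For distinct lines `a`, `b`, `c ≠ l` through `V` and a point `Z ≠ V` of `l` consider the product
of the perspectivity `a → b` with centre `W` and the perspectivity `b → c` with centre `Z`. There are
`n (n - 1) (n - 2) n` such products; in a plane which has all elations with centre `V` and axis `l`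
all of them are perspectivities `a → c` with a centre on `l`.

* (1) For at least `n ^ 3 (n - 2) / 294` choices for the pair `(V, W)` or the pair `(W, V)` together
  the product is not such a perspectivity: a positive proportion fails for every single pair
  of points of every single line.
* (2) At least `2 n ^ 5 / 441` pairs of triangles `A B C`, `A' B' C'`, which are in perspective from
  `V` (or from `W`), whose sides `AB`, `A'B'` meet in `W` (or in `V`) and whose sides
  `BC`, `B'C'` meet on `l` have sides `AC`, `A'C'` which do not meet on `l`.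

Proof. The library has the case in which one averages over all points of `l` and over all
products. Here the permutations of the lines through `W` given by the perspectivities
between two lines through `V` are compared by a path argument: the set of the permutations from `a` to
`b` is near to the set for `x`, `b`, then near to the set for `x`, `d` (by inversion), then near to
the set for `c`, `d`; so one set `K` of `n` permutations contains nearly all perspectivities with
centre `Z` for nearly all `Z`. A double count of the pairs of factors makes `K` nearly closed, so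
it is near to a regular group. The groups for `(V, W)` and `(W, V)` are linked as in the library,
which gives the prime power.
-/

namespace Pool.Agent.Results.MP_409a13_co.TwoElationCentres

open Configuration

variable {P L : Type*} [Membership P L]

/-- The lines `a`, `b`, `c` through `V` are distinct and different from `l`, the point `Z ≠ V`
is on `l`, and the product of the perspectivity `a → b` with centre `W` and the perspectivity
`b → c` with centre `Z` is not a perspectivity `a → c` with its centre `z` on `l`. -/
def FailingProduct (l : L) (V W : P) (a b c : L) (Z : P) : Prop :=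
  (V ∈ a ∧ a ≠ l) ∧ (V ∈ b ∧ b ≠ l) ∧ (V ∈ c ∧ c ≠ l) ∧ a ≠ b ∧ a ≠ c ∧ b ≠ c ∧
  Z ∈ l ∧ Z ≠ V ∧
  ¬ ∃ z ∈ l, ∀ p q r : P, p ∈ a → q ∈ b → r ∈ c → p ∉ l → q ∉ l → r ∉ l →
    (∃ m : L, W ∈ m ∧ p ∈ m ∧ q ∈ m) → (∃ m : L, Z ∈ m ∧ q ∈ m ∧ r ∈ m) →
    (∃ m : L, z ∈ m ∧ p ∈ m ∧ r ∈ m)

/-- The lines `pq` and `rs` meet on `l`. -/
def MeetOn (l : L) (p q r s : P) : Prop :=
  ∃ z ∈ l, (∃ m : L, z ∈ m ∧ p ∈ m ∧ q ∈ m) ∧ ∃ m : L, z ∈ m ∧ r ∈ m ∧ s ∈ m

/-- The points `A, A', B, B', C, C'` are not on `l`; the triangles `A B C` and `A' B' C'` are in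
perspective from `V` (the three lines through `V` are distinct); the lines `AB` and `A'B'` pass
through `W`; the lines `BC` and `B'C'` meet on `l`, but `AC` and `A'C'` do not meet on `l`. -/
def OpenTriangles (l : L) (V W : P) (A A' B B' C C' : P) : Prop :=
  (A ∉ l ∧ A' ∉ l) ∧ (B ∉ l ∧ B' ∉ l) ∧ (C ∉ l ∧ C' ∉ l) ∧
  (∃ a b c : L, a ≠ b ∧ a ≠ c ∧ b ≠ c ∧ (V ∈ a ∧ A ∈ a ∧ A' ∈ a) ∧ (V ∈ b ∧ B ∈ b ∧ B' ∈ b) ∧
    (V ∈ c ∧ C ∈ c ∧ C' ∈ c)) ∧
  ((∃ m : L, W ∈ m ∧ A ∈ m ∧ B ∈ m) ∧ ∃ m : L, W ∈ m ∧ A' ∈ m ∧ B' ∈ m) ∧
  MeetOn l B C B' C' ∧ ¬ MeetOn l A C A' C'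

/-- the number of the failing products `(a, b, c, Z)` -/
noncomputable def failingProducts (l : L) (V W : P) : ℕ :=
  Nat.card {t : L × L × L × P // FailingProduct l V W t.1 t.2.1 t.2.2.1 t.2.2.2}

/-- the number of the pairs of triangles `(A, A', B, B', C, C')` -/
noncomputable def openTriangles (l : L) (V W : P) : ℕ :=
  Nat.card {t : P × P × P × P × P × P //
    OpenTriangles l V W t.1 t.2.1 t.2.2.1 t.2.2.2.1 t.2.2.2.2.1 t.2.2.2.2.2}

theorem result (P L : Type*) [Fintype P] [Fintype L] [Membership P L] [ProjectivePlane P L]
    (n : ℕ) (hn : n = ProjectivePlane.order P L) (hnp : ¬ IsPrimePow n)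
    (l : L) (V W : P) (hV : V ∈ l) (hW : W ∈ l) (hVW : V ≠ W) :
    n ^ 3 * (n - 2) ≤ 294 * (failingProducts l V W + failingProducts l W V) ∧
    2 * n ^ 5 ≤ 441 * (openTriangles l V W + openTriangles l W V) := by
  subst hn
  have h := H178.TwoA.two_points l V W hV hW hVW hnp
  have h1 : ∀ X Y : P, failingProducts l X Y = H178.TwoA.failCount l X Y := by
    intro X Y
    classical
    unfold failingProducts H178.TwoA.failCount
    rw [Nat.card_eq_fintype_card, Fintype.card_subtype]
    congr!
  have h2 : ∀ X Y : P, openTriangles l X Y = H178.TwoA.openCount l X Y := by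
    intro X Y
    classical
    unfold openTriangles H178.TwoA.openCount
    rw [Nat.card_eq_fintype_card, Fintype.card_subtype]
    congr!
  rw [h1, h1, h2, h2]
  exact h

end Pool.Agent.Results.MP_409a13_co.TwoElationCentres
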